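import Pool.Agent.Work.MP_db9399_ot_helper1.MAIN
import Pool.Agent.Work.MP_db9399_ot_helper67.NRMC
import Pool.Agent.Work.MP_db9399_ot_helper67.NDEC
import Pool.Agent.Work.MP_db9399_ot_helper49.VCOLC
import Pool.Agent.Work.MP_db9399_ot_helper34.CORE
import Pool.Agent.Work.MP_db9399_ot_helper34.LEFT
import Pool.Agent.Work.MP_db9399_ot_helper29.UPAR
import Pool.Agent.Work.MP_db9399_ot_helper21.P0ALL
import Pool.Agent.Work.MP_db9399_ot_helper90.PEALL
import Pool.Agent.Work.MP_db9399_ot_helper6.ASM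
import Pool.Agent.Work.MP_db9399_lf_helper6.LABF
import Pool.Agent.Work.MP_db9399_lh_helper35.Core

/-! # THEOREM OUT (with a conflict graph), unconditional -/

set_option autoImplicit false

namespace Pool.Agent.Work.MP_db9399_ot.helper1

universe u

theorem core_holds : Stmt_CORE.{u} :=
  helper34.stmt_CORE MP_db9399_lh.helper35.sxp MP_db9399_bg.helper21.stmt_SXR
    MP_db9399_lh.helper35.t1 MP_db9399_lh.helper35.stmt_PAT MP_db9399_bg.helper27.stmt_DEEPF
    MP_db9399_bg.helper59.stmt_HIT2 MP_db9399_bg.helper29.stmt_TUT2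

theorem nrmc_holds : Stmt_NRMC.{u} :=
  helper67.stmt_NRMC MP_db9399_lf.helper6.stmt_LABF
    (MP_db9399_lh.helper35.stmt_ESX MP_db9399_lh.helper35.sxp) core_holds
    (helper67.stmt_NDEC MP_db9399_bg.helper31.stmt_FAC) helper49.stmt_VCOLC helper29.stmt_UPAR
    helper34.stmt_LEFT helper21.stmt_P0ALL helper90.stmt_PEALL helper6.stmt_ASM

theorem outc_holds : Stmt_OUTC.{u} :=
  stmt_OUTC MP_db9399_lc.helper85.stmt_EMBB MP_db9399_lf.helper6.stmt_LABF nrmc_holds

theorem out_holds : Stmt_OUT.{u} := stmt_OUT_of outc_holds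

end Pool.Agent.Work.MP_db9399_ot.helper1
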