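import Pool.Agent.Work.MP_db9399_ot_helper1.OUTR

/-! # THEOREM OUT: the theorem, with a conflict graph -/

set_option autoImplicit false
set_option linter.unusedSectionVars false

namespace Pool.Agent.Work.MP_db9399_ot.helper1

open Finset Classical
open Pool.Agent.Work.MP_db9399_all (nb)
open Pool.Agent.Work.MP_db9399_dn (NB IsMat Tot)
open Pool.Agent.Work.MP_db9399_mad (EG)
open Pool.Agent.Work.MP_db9399_bg (HPre den cl LabP)
open Pool.Agent.Work.MP_db9399_th (Kern Bdry Host)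
open Pool.Agent.Work.MP_db9399_lc (BL)

universe u

theorem bl_mono {V : Type u} [Fintype V] {g ε ε' : ℝ} {G : SimpleGraph V} {d : ℕ}
    (h : BL g ε G d) (he : ε ≤ ε') : BL g ε' G d where
  deg := h.deg
  low v := le_trans (mul_le_mul_of_nonneg_right (by linarith) (Nat.cast_nonneg _)) (h.low v)
  bip := h.bip
  nsc := h.nsc
  big := h.big

theorem bh_mono {V : Type u} [Fintype V] {g ε b ε' b' : ℝ} {H : SimpleGraph V} {D : ℕ}
    (h : BH g ε b H D) (he : ε ≤ ε') (hb : b' ≤ b) : BH g ε' b' H D where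
  deg := h.deg
  low v := le_trans (mul_le_mul_of_nonneg_right (by linarith) (Nat.cast_nonneg _)) (h.low v)
  bip := h.bip
  nsc C hC := h.nsc C (hC.trans hb)
  big := h.big

/-- **THEOREM OUT** with a conflict graph -/
theorem stmt_OUTC (hEMBB : MP_db9399_lc.Stmt_EMBB.{u}) (hLABF : Stmt_LABF.{u})
    (hNRM : Stmt_NRMC.{u}) : Stmt_OUTC.{u} := by
  intro δ π hδ hπ hπ3
  obtain ⟨M1, hM1⟩ := exists_M1 π hπ3
  obtain ⟨R0, hR0'⟩ := exists_nat_ge (4 / δ + 1)
  have hR0 : 4 ≤ δ * R0 := by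
    have h1 : 4 / δ ≤ R0 := by linarith
    rw [div_le_iff₀ hδ] at h1
    linarith
  have hR1 : (1 : ℝ) ≤ R0 := by
    have : 0 < 4 / δ := by positivity
    linarith
  have hR1' : 1 ≤ R0 := by exact_mod_cast hR1
  obtain ⟨n, hn⟩ : ∃ n, n = (3 * M1 + 1) * R0 := ⟨_, rfl⟩
  have hcard : Fintype.card (Kp M1 × Fin R0) = n := by
    rw [Fintype.card_prod, card_Kp, Fintype.card_fin, hn]
  obtain ⟨e⟩ : Nonempty (Kp M1 × Fin R0 ≃ Fin n) := ⟨Fintype.equivFinOfCardEq hcard⟩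
  have hn0 : 0 < n := by
    rw [hn]
    positivity
  have hnR : (0 : ℝ) ≤ n := Nat.cast_nonneg _
  have hn1 : (0 : ℝ) < (n : ℝ) + 1 := by positivity
  refine ⟨1 / (100 * ((n : ℝ) + 1)), by positivity, ?_, ?_⟩
  · apply one_div_le_one_div_of_le (by norm_num)
    linarith
  intro g hg hg1
  obtain ⟨g', hg', hgg', hE⟩ := hEMBB g hg hg1
  obtain ⟨η, hηd⟩ : ∃ η : ℝ, η = min (1 / 10) (min (δ / 2) (1 / (4 * ((n : ℝ) + 1)))) := ⟨_, rfl⟩
  have hη0 : 0 < η := by
    rw [hηd]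
    exact lt_min (by norm_num) (lt_min (by positivity) (by positivity))
  have hη1 : η ≤ 1 / 10 := by rw [hηd]; exact min_le_left _ _
  have hη2 : η ≤ δ / 2 := by
    rw [hηd]; exact (min_le_right _ _).trans (min_le_left _ _)
  have hη3 : η ≤ 1 / (4 * ((n : ℝ) + 1)) := by
    rw [hηd]; exact (min_le_right _ _).trans (min_le_right _ _)
  obtain ⟨εN, dN, hεN, hN⟩ := hNRM g' (g' / 20) η n hg' (by linarith) (by positivity)
    (by linarith) hη0 hη1 hn0
  obtain ⟨εC, hεCd⟩ : ∃ ε : ℝ, ε = min εN (1 / (4 * ((n : ℝ) + 1))) := ⟨_, rfl⟩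
  have hεC : 0 < εC := by rw [hεCd]; exact lt_min hεN (by positivity)
  have hεC1 : εC ≤ εN := by rw [hεCd]; exact min_le_left _ _
  have hεC2 : εC ≤ 1 / (4 * ((n : ℝ) + 1)) := by rw [hεCd]; exact min_le_right _ _
  obtain ⟨εT, σT, dT, hεT, hσT, hT⟩ := MP_db9399_th.helper59.thin_uniform.{u} n (6 * (n + 1)) g'
    εC hg' (by linarith) hεC (by omega) hn0
  obtain ⟨dE, hE'⟩ := hE (min εT εN) (lt_min hεT hεN)
  obtain ⟨σ, hσd⟩ : ∃ σ : ℝ, σ = min σT (δ / 8) := ⟨_, rfl⟩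
  have hσ0 : 0 < σ := by rw [hσd]; exact lt_min hσT (by positivity)
  have hσ1 : σ ≤ σT := by rw [hσd]; exact min_le_left _ _
  have hσ2 : σ ≤ δ / 8 := by rw [hσd]; exact min_le_right _ _
  have : NeZero R0 := ⟨by omega⟩
  obtain ⟨dL, hL⟩ := hLABF (Lb M1 R0) 2 σ 1 (1 / 2) hσ0 one_pos (by norm_num)
  refine ⟨εN, max (max dN dT) (max dE (max dL ⌈16 / δ⌉₊)), hεN, ?_⟩
  intro V _ G Cf d k Sp Ys UH c0 EH tu hd hdV hk hdeg hSp hind hbip hnsc hCf hYs hdis hH
  have hdN : dN ≤ d := le_trans (le_trans (le_max_left _ _) (le_max_left _ _)) hd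
  have hdT : dT ≤ d := le_trans (le_trans (le_max_right _ _) (le_max_left _ _)) hd
  have hdE : dE ≤ d := le_trans (le_trans (le_max_left _ _) (le_max_right _ _)) hd
  have hdL : dL ≤ d := le_trans (le_trans (le_trans (le_max_left _ _) (le_max_right _ _))
    (le_max_right _ _)) hd
  have hdδ : ⌈16 / δ⌉₊ ≤ d := le_trans (le_trans (le_trans (le_max_right _ _)
    (le_max_right _ _)) (le_max_right _ _)) hd
  have hdδ' : 16 ≤ δ * d := by
    have h1 : 16 / δ ≤ d := (Nat.le_ceil _).trans (by exact_mod_cast hdδ)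
    rw [div_le_iff₀ hδ] at h1
    linarith
  have hd0 : (0 : ℝ) ≤ d := Nat.cast_nonneg _
  obtain ⟨W, hW, K, R, hR, hBL⟩ := hE' G d hdE hdV hdeg hbip hnsc
  -- labels
  obtain ⟨lb, hlb⟩ := hL (V := V ⊕ W) ![bg G Sp, qg Ys] (2 * d) (fun _ => d) (by omega)
    (by
      intro i x
      fin_cases i
      · change (nb (bg G Sp : SimpleGraph (V ⊕ W)) x).card ≤ 2 * d
        rcases x with a | w
        · have h1 := (card_nb_bg (W := W) G Sp a).trans (hdeg a)
          omega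
        · rw [card_nb_bg', card_empty]
          exact Nat.zero_le _
      · exact card_qg hdis (fun Y hY => (hYs Y hY).2) x)
    (by
      intro i
      push_cast
      constructor
      · linarith
      · linarith)
  have hlb0 : LabP (bg G Sp : SimpleGraph (V ⊕ W)) d σ 1 lb := hlb 0
  have hlb1 : LabP (qg Ys : SimpleGraph (V ⊕ W)) d σ 1 lb := hlb 1
  -- thinning
  obtain ⟨H, Gc, D, hBH, hCls, hDd, -, hsup⟩ := hT (EG G K R) d (ul Sp) (bg G Sp) lb (qk e)
    hdT (bl_mono hBL (min_le_left _ _)) (bdry hSp hind K R hR) (card_Lb e) (kern e)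
    (by
      intro y hy l
      obtain ⟨X, hX, h1⟩ : ∃ X : Finset (V ⊕ W), (∀ x, x ∈ X ↔
          x ∈ nb (bg G Sp : SimpleGraph (V ⊕ W)) y ∧ lb x ∈ ({l} : Finset (Lb M1 R0))) ∧
          |(X.card : ℝ) - den ({l} : Finset (Lb M1 R0)) *
            (nb (bg G Sp : SimpleGraph (V ⊕ W)) y).card| ≤ σ * d :=
        ⟨_, fun x => (@Finset.mem_inter _ (fun a b => Classical.propDecidable (a = b)) _ _ _).trans
          (and_congr_right fun _ => mem_cl), hlb0.deg y {l}⟩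
      have h2 : den ({l} : Finset (Lb M1 R0)) = 1 / ((6 * (n + 1) : ℕ) : ℝ) := by
        unfold den
        rw [card_singleton, card_Lb e, Nat.cast_one]
      have h3 : X = (nb (bg G Sp : SimpleGraph (V ⊕ W)) y).filter (fun s => lb s = l) := by
        ext s
        rw [hX, mem_filter, mem_singleton]
      rw [h3, h2] at h1
      have h4 : 1 / ((6 * (n + 1) : ℕ) : ℝ) * (nb (bg G Sp : SimpleGraph (V ⊕ W)) y).card =
          ((nb (bg G Sp : SimpleGraph (V ⊕ W)) y).card : ℝ) / ((6 * (n + 1) : ℕ) : ℝ) := by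
        ring
      rw [h4] at h1
      exact h1.trans (mul_le_mul_of_nonneg_right hσ1 hd0))
  -- the machine
  have hkpos : 0 < k := by omega
  obtain ⟨c, t, K0, E1, cs, hTot, hcU, htE, hres, hcf⟩ := hN (EG G K R) H (qg Ys) (eh Cf) Gc d D k
    (ul UH) (Sum.elim c0 (fun _ => ⟨0, hkpos⟩)) (eh EH) (Sum.elim tu (fun _ => ⟨0, hkpos⟩))
    hdN hk (bl_mono hBL (min_le_right _ _))
    (bh_mono hBH hεC1 (by
      have : g' / 20 ≤ g' := by linarith
      exact mul_le_mul_of_nonneg_right (by linarith) hd0))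
    (hCls.mono hεC1) (card_qg hdis (fun Y hY => (hYs Y hY).2))
    (by
      intro x
      rcases x with a | w
      · have h1 := card_nb_eh (W := W) Cf a
        refine le_trans ?_ (hCf a)
        exact_mod_cast h1
      · rw [card_nb_eh', card_empty, Nat.cast_zero]
        positivity)
    (hpre_lift hH K R hR _)
  refine ⟨fun v => c (Sum.inl v), fun v w => t (Sum.inl v) (Sum.inl w), K0,
    fun j => K0.filter (fun b => b ∉ E1 ∧ ∃ i, cs b = some i ∧ kt (e.symm i).1 = some j),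
    fun v => (lb (Sum.inl v)).1, fun v => (lb (Sum.inl v)).2.1,
    univ.filter (fun v => (lb (Sum.inl v)).2.2 = none), ?_, ?_, ?_, ?_, ?_⟩
  · obtain ⟨h1, h2, h3, h4⟩ := hTot
    refine ⟨fun v w hvw => h1 _ _ hvw, fun v w => h2 _ _, ?_, fun v w hvw => h4 _ _ hvw⟩
    intro v x hx y hy hxy
    have hx' : Sum.inl x ∈ (nb (EG G K R) (Sum.inl v) : Set (V ⊕ W)) := by
      rw [mem_coe, mem_nb] at hx ⊢
      exact hx
    have hy' : Sum.inl y ∈ (nb (EG G K R) (Sum.inl v) : Set (V ⊕ W)) := by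
      rw [mem_coe, mem_nb] at hy ⊢
      exact hy
    exact Sum.inl.inj (h3 (Sum.inl v) hx' hy' hxy)
  · intro v hv
    exact hcU (Sum.inl v) (mem_ul.mpr hv)
  · intro v v' hvv
    exact htE (Sum.inl v) (Sum.inl v') (eh_ll.mpr hvv)
  · exact outR e hres hlb1 hsup hYs hdis hδ hπ3 hM1 hR0 hR1 hσ0.le hσ2 hdδ' hη2 hη0.le hη3
      hεC2 hεC.le hCls.le_D
  · intro v w hv hw hvw
    exact hcf _ _ (fun h => hv (mem_ul.mp h)) (fun h => hw (mem_ul.mp h)) (eh_ll.mpr hvw)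

theorem stmt_OUT_of (h : Stmt_OUTC.{u}) : Stmt_OUT.{u} := by
  intro δ π hδ hπ hπ3
  obtain ⟨θ, hθ, hθ1, H⟩ := h δ π hδ hπ hπ3
  refine ⟨θ, hθ, hθ1, fun g hg hg1 => ?_⟩
  obtain ⟨ε, d0, hε, H'⟩ := H g hg hg1
  refine ⟨d0, ?_⟩
  intro V _ G d k Sp Ys UH c0 EH tu hd hdV hk hdeg hSp hind hbip hnsc hYs hdis hH
  obtain ⟨c, t, K0, C, p, a, Z, h1, h2, h3, h4, -⟩ := H' G ⊥ d k Sp Ys UH c0 EH tu hd hdV hk hdeg
    hSp hind hbip hnsc
    (by
      intro v
      have : nb (⊥ : SimpleGraph V) v = ∅ := by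
        rw [eq_empty_iff_forall_notMem]
        intro w hw
        rw [mem_nb] at hw
        exact hw
      rw [this, card_empty, Nat.cast_zero]
      positivity) hYs hdis hH
  exact ⟨c, t, K0, C, p, a, Z, h1, h2, h3, h4⟩

end Pool.Agent.Work.MP_db9399_ot.helper1
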