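import Pool.Agent.Work.MP_db9399_th.Interface

/-! # THEOREM OUT: the kernel of the edge types at the boundary edges -/

set_option autoImplicit false

namespace Pool.Agent.Work.MP_db9399_ot.helper1

open Finset Classical
open Pool.Agent.Work.MP_db9399_th (Kern)

/-- `none`: type 0, `some (j, _)`: type `j` -/
abbrev Kp (M1 : ℕ) := Option (Fin 3 × Fin M1)

/-- labels of the spot vertices: third, letter, `none` (special) or class number -/
abbrev Lb (M1 R0 : ℕ) := Fin 3 × (Bool × Option (Kp M1 × Fin R0))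

/-- third of a type -/
def kt {M1 : ℕ} : Kp M1 → Option (Fin 3)
  | none => none
  | some x => some x.1

/-- weight of the type `κ` at the third `p` -/
noncomputable def wt {M1 : ℕ} (p : Fin 3) (κ : Kp M1) : ℝ :=
  if kt κ = none then 2 else if kt κ = some p then 0 else 3

theorem wt_nonneg {M1 : ℕ} (p : Fin 3) (κ : Kp M1) : 0 ≤ wt p κ := by
  unfold wt
  split_ifs <;> norm_num

theorem sum_wt {M1 : ℕ} (p : Fin 3) : ∑ κ : Kp M1, wt p κ = 2 * (3 * (M1 : ℝ) + 1) := by
  rw [Fintype.sum_option, Fintype.sum_prod_type]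
  have h1 : wt p (none : Kp M1) = 2 := by
    unfold wt kt
    simp
  have h2 : ∀ x : Fin 3, ∑ y : Fin M1, wt p (some (x, y) : Kp M1) =
      3 * M1 - (if x = p then 3 * (M1 : ℝ) else 0) := by
    intro x
    by_cases h : x = p
    · have h3 : ∀ y : Fin M1, wt p (some (x, y) : Kp M1) = 0 := by
        intro y
        unfold wt kt
        simp [h]
      rw [Finset.sum_congr rfl (fun y _ => h3 y), if_pos h]
      simp
    · have h3 : ∀ y : Fin M1, wt p (some (x, y) : Kp M1) = 3 := by
        intro y
        unfold wt kt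
        simp [h]
      rw [Finset.sum_congr rfl (fun y _ => h3 y), if_neg h]
      simp
      ring
  rw [h1, Finset.sum_congr rfl (fun x _ => h2 x), Finset.sum_sub_distrib, Finset.sum_ite_eq']
  simp only [mem_univ, if_true, sum_const, card_univ, Fintype.card_fin, nsmul_eq_mul]
  ring

theorem sum_wt' {M1 : ℕ} (κ : Kp M1) : ∑ p : Fin 3, wt p κ = 6 := by
  cases κ with
  | none =>
    have h1 : ∀ p : Fin 3, wt p (none : Kp M1) = 2 := by
      intro p
      unfold wt kt
      simp
    rw [Finset.sum_congr rfl (fun x _ => h1 x)]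
    simp only [sum_const, card_univ, Fintype.card_fin, nsmul_eq_mul]
    norm_num
  | some x =>
    have h1 : ∀ p : Fin 3, wt p (some x : Kp M1) = 3 - (if p = x.1 then 3 else 0) := by
      intro p
      unfold wt kt
      simp only [reduceCtorEq, if_false, Option.some.injEq]
      by_cases h : x.1 = p
      · rw [if_pos h, if_pos h.symm]; norm_num
      · rw [if_neg h, if_neg (fun h' => h h'.symm)]; norm_num
    rw [Finset.sum_congr rfl (fun x _ => h1 x), Finset.sum_sub_distrib, Finset.sum_ite_eq']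
    simp only [mem_univ, if_true, sum_const, card_univ, Fintype.card_fin, nsmul_eq_mul]
    norm_num

section kern
variable {M1 R0 n : ℕ} (e : Kp M1 × Fin R0 ≃ Fin n)

/-- the kernel -/
noncomputable def qk (l : Lb M1 R0) (c : Option (Fin n)) : ℝ :=
  match l.2.2, c with
  | none, none => 1
  | none, some _ => 0
  | some _, none => 0
  | some (_, v0), some i =>
      if (e.symm i).2 = v0 then wt l.1 (e.symm i).1 / (2 * (3 * (M1 : ℝ) + 1)) else 0

theorem qk_nonneg (l : Lb M1 R0) (c : Option (Fin n)) : 0 ≤ qk e l c := by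
  obtain ⟨p, b, u⟩ := l
  unfold qk
  rcases u with _ | ⟨κ, v⟩ <;> rcases c with _ | i
  · exact zero_le_one
  · exact le_rfl
  · exact le_rfl
  · simp only
    split_ifs
    · exact div_nonneg (wt_nonneg _ _) (by positivity)
    · exact le_rfl

theorem sum_qk (l : Lb M1 R0) : ∑ c, qk e l c = 1 := by
  obtain ⟨p, b, u⟩ := l
  rw [Fintype.sum_option]
  rcases u with _ | ⟨κ, v⟩
  · unfold qk
    simp
  · unfold qk
    simp only [zero_add]
    have h1 : ∑ i : Fin n, (if (e.symm i).2 = v then
        wt p (e.symm i).1 / (2 * (3 * (M1 : ℝ) + 1)) else 0) =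
        ∑ x : Kp M1 × Fin R0, (if x.2 = v then wt p x.1 / (2 * (3 * (M1 : ℝ) + 1)) else 0) :=
      Equiv.sum_comp e.symm (fun x : Kp M1 × Fin R0 =>
        if x.2 = v then wt p x.1 / (2 * (3 * (M1 : ℝ) + 1)) else 0)
    rw [h1, Fintype.sum_prod_type]
    simp only [Finset.sum_ite_eq', mem_univ, if_true]
    rw [← Finset.sum_div, sum_wt]
    have : (2 * (3 * (M1 : ℝ) + 1)) ≠ 0 := by positivity
    exact div_self this

theorem card_Kp : Fintype.card (Kp M1) = 3 * M1 + 1 := by
  rw [Fintype.card_option, Fintype.card_prod, Fintype.card_fin, Fintype.card_fin]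

theorem card_n (e : Kp M1 × Fin R0 ≃ Fin n) : (3 * M1 + 1) * R0 = n := by
  have h := Fintype.card_congr e
  rw [Fintype.card_prod, card_Kp, Fintype.card_fin, Fintype.card_fin] at h
  exact h

theorem card_Lb (e : Kp M1 × Fin R0 ≃ Fin n) : Fintype.card (Lb M1 R0) = 6 * (n + 1) := by
  rw [Fintype.card_prod, Fintype.card_prod, Fintype.card_option, Fintype.card_congr e,
    Fintype.card_fin, Fintype.card_fin, Fintype.card_bool]
  ring

theorem avg_qk (c : Option (Fin n)) : ∑ l : Lb M1 R0, qk e l c = 6 := by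
  rw [Fintype.sum_prod_type]
  simp only [Fintype.sum_prod_type, Fintype.sum_option, Fintype.sum_bool]
  rcases c with _ | i
  · unfold qk
    simp
    norm_num
  · unfold qk
    simp only [zero_add, Finset.sum_ite_eq, mem_univ, if_true]
    have h0 : (2 * (3 * (M1 : ℝ) + 1)) ≠ 0 := by positivity
    have h2 : ∀ p : Fin 3, (∑ _x : Fin 3, ∑ _y : Fin M1,
        wt p (e.symm i).1 / (2 * (3 * (M1 : ℝ) + 1))) =
        3 * M1 * (wt p (e.symm i).1 / (2 * (3 * (M1 : ℝ) + 1))) := by
      intro p
      simp only [sum_const, card_univ, Fintype.card_fin, nsmul_eq_mul]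
      push_cast
      ring
    simp only [h2]
    have h3 := sum_wt' (e.symm i).1
    have h4 : ∀ p : Fin 3, wt p (e.symm i).1 / (2 * (3 * (M1 : ℝ) + 1)) +
        3 * M1 * (wt p (e.symm i).1 / (2 * (3 * (M1 : ℝ) + 1))) +
        (wt p (e.symm i).1 / (2 * (3 * (M1 : ℝ) + 1)) +
          3 * M1 * (wt p (e.symm i).1 / (2 * (3 * (M1 : ℝ) + 1)))) = wt p (e.symm i).1 := by
      intro p
      field_simp
      ring
    rw [Finset.sum_congr rfl (fun p _ => h4 p)]
    exact h3

theorem kern (e : Kp M1 × Fin R0 ≃ Fin n) :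
    Kern (qk e) (fun _ : Option (Fin n) => 1 / ((n : ℝ) + 1)) where
  pos := qk_nonneg e
  sum := sum_qk e
  avg c := by
    rw [avg_qk, card_Lb e]
    push_cast
    have : (n : ℝ) + 1 ≠ 0 := by positivity
    field_simp

/-- support of the kernel -/
theorem qk_pos {l : Lb M1 R0} {c : Option (Fin n)} (h : 0 < qk e l c) :
    (l.2.2 = none ∧ c = none) ∨ ∃ κ' v κ, l.2.2 = some (κ', v) ∧ c = some (e (κ, v)) ∧
      kt κ ≠ some l.1 := by
  obtain ⟨p, b, u⟩ := l
  unfold qk at h
  rcases u with _ | ⟨κ', v⟩ <;> rcases c with _ | i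
  · exact Or.inl ⟨rfl, rfl⟩
  · exact absurd h (lt_irrefl _)
  · exact absurd h (lt_irrefl _)
  · right
    simp only at h
    split_ifs at h with h1
    · refine ⟨κ', v, (e.symm i).1, rfl, ?_, ?_⟩
      · rw [← h1]
        simp
      · intro h2
        have h3 : wt p (e.symm i).1 = 0 := by
          unfold wt
          rw [h2]
          simp
        rw [h3, zero_div] at h
        exact absurd h (lt_irrefl _)
    · exact absurd h (lt_irrefl _)

end kern

end Pool.Agent.Work.MP_db9399_ot.helper1
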