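import Pool.Agent.Work.MP_db9399_ot.Out

/-! # THEOREM OUT: lifting to the embedded graph -/

set_option autoImplicit false
set_option linter.unusedSectionVars false

namespace Pool.Agent.Work.MP_db9399_ot.helper1

open Finset Classical
open Pool.Agent.Work.MP_db9399_all (nb)
open Pool.Agent.Work.MP_db9399_dn (NB IsMat Tot)
open Pool.Agent.Work.MP_db9399_mad (EG)
open Pool.Agent.Work.MP_db9399_bg (HPre)

universe u

section lift
variable {V : Type u} [Fintype V] {W : Type} [Fintype W]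

theorem mem_nb {V : Type u} [Fintype V] (G : SimpleGraph V) (v w : V) :
    w ∈ nb G v ↔ G.Adj v w := by
  unfold nb; simp

/-- the lifted matching -/
def eh (EH : SimpleGraph V) : SimpleGraph (V ⊕ W) := EG EH ⊥ (fun _ _ => False)

theorem eh_ll {EH : SimpleGraph V} {a b : V} :
    (eh EH : SimpleGraph (V ⊕ W)).Adj (Sum.inl a) (Sum.inl b) ↔ EH.Adj a b := Iff.rfl

theorem eh_r {EH : SimpleGraph V} {w : W} {x : V ⊕ W} : ¬ (eh EH).Adj (Sum.inr w) x := by
  intro h
  rcases x with a | b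
  · exact h
  · exact h

theorem eh_r' {EH : SimpleGraph V} {w : W} {x : V ⊕ W} : ¬ (eh EH).Adj x (Sum.inr w) :=
  fun h => eh_r h.symm

/-- the lifted set -/
def ul (U : Finset V) : Finset (V ⊕ W) := U.map ⟨Sum.inl, Sum.inl_injective⟩

theorem mem_ul {U : Finset V} {a : V} : (Sum.inl a : V ⊕ W) ∈ ul U ↔ a ∈ U := by
  unfold ul
  rw [mem_map]
  constructor
  · rintro ⟨b, hb, h⟩
    rw [← Sum.inl.inj h]
    exact hb
  · intro h
    exact ⟨a, h, rfl⟩

theorem not_ul {U : Finset V} {w : W} : (Sum.inr w : V ⊕ W) ∉ ul U := by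
  unfold ul
  rw [mem_map]
  rintro ⟨b, -, h⟩
  cases h

theorem hpre_lift {k : ℕ} {G : SimpleGraph V} {UH : Finset V} {c0 : V → Fin k}
    {EH : SimpleGraph V} {tu : V → Fin k} (h : HPre G UH c0 EH tu) (K : SimpleGraph W)
    (R : V → W → Prop) (hR : ∀ w a b, R a w → R b w → a = b) (z : Fin k) :
    HPre (EG G K R) (ul UH) (Sum.elim c0 (fun _ => z)) (eh EH) (Sum.elim tu (fun _ => z)) where
  EG := by
    intro x y hxy
    rcases x with a | a
    · rcases y with b | b
      · exact h.EG hxy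
      · exact absurd hxy eh_r'
    · exact absurd hxy eh_r
  mat := by
    intro x
    rw [card_le_one]
    intro y hy z hz
    rw [mem_nb] at hy hz
    rcases x with a | a
    · rcases y with b | b
      · rcases z with c | c
        · have h1 := h.mat a
          rw [card_le_one] at h1
          rw [h1 b ((mem_nb _ _ _).mpr hy) c ((mem_nb _ _ _).mpr hz)]
        · exact absurd hz eh_r'
      · exact absurd hy eh_r'
    · exact absurd hy eh_r
  EU := by
    intro x y hxy
    rcases x with a | a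
    · rcases y with b | b
      · exact mem_ul.mpr (h.EU a b hxy)
      · exact absurd hxy eh_r'
    · exact absurd hxy eh_r
  cov := by
    intro x hx
    rcases x with a | a
    · obtain ⟨b, hb⟩ := h.cov a (mem_ul.mp hx)
      exact ⟨Sum.inl b, hb⟩
    · exact absurd hx not_ul
  ind := by
    intro x hx y hy hxy
    rcases x with a | a
    · rcases y with b | b
      · exact h.ind a (mem_ul.mp hx) b (mem_ul.mp hy) hxy
      · exact absurd hy not_ul
    · exact absurd hx not_ul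
  far := by
    intro v x hx y hy hvx hvy
    rcases x with a | a
    · rcases y with b | b
      · rcases v with v | w
        · rcases h.far v a (mem_ul.mp hx) b (mem_ul.mp hy) hvx hvy with h1 | h1
          · left; rw [h1]
          · right; exact h1
        · left
          rw [hR w a b hvx hvy]
      · exact absurd hy not_ul
    · exact absurd hx not_ul
  cc := by
    intro x y hxy
    rcases x with a | a
    · rcases y with b | b
      · exact h.cc a b hxy
      · exact absurd hxy eh_r'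
    · exact absurd hxy eh_r
  ct := by
    intro x hx
    rcases x with a | a
    · exact h.ct a (mem_ul.mp hx)
    · exact absurd hx not_ul
  tt := by
    intro x y hxy
    rcases x with a | a
    · rcases y with b | b
      · exact h.tt a b hxy
      · exact absurd hxy eh_r'
    · exact absurd hxy eh_r

/-- the boundary graph -/
def bg (G : SimpleGraph V) (Sp : Finset V) : SimpleGraph (V ⊕ W) where
  Adj x y := ∃ a b, x = Sum.inl a ∧ y = Sum.inl b ∧ G.Adj a b ∧ (a ∈ Sp ∨ b ∈ Sp)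
  symm := ⟨by
    rintro x y ⟨a, b, h1, h2, h3, h4⟩
    exact ⟨b, a, h2, h1, h3.symm, h4.symm⟩⟩
  loopless := ⟨by
    rintro x ⟨a, b, h1, h2, h3, h4⟩
    rw [h1] at h2
    rw [Sum.inl.inj h2] at h3
    exact G.loopless.irrefl _ h3⟩

theorem bg_ll {G : SimpleGraph V} {Sp : Finset V} {a b : V} :
    (bg G Sp : SimpleGraph (V ⊕ W)).Adj (Sum.inl a) (Sum.inl b) ↔
      G.Adj a b ∧ (a ∈ Sp ∨ b ∈ Sp) := by
  constructor
  · rintro ⟨a', b', h1, h2, h3⟩
    rw [Sum.inl.inj h1, Sum.inl.inj h2]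
    exact h3
  · intro h
    exact ⟨a, b, rfl, rfl, h⟩

theorem bg_r {G : SimpleGraph V} {Sp : Finset V} {w : W} {x : V ⊕ W} :
    ¬ (bg G Sp).Adj (Sum.inr w) x := by
  rintro ⟨a, b, h1, -⟩
  cases h1

theorem bg_r' {G : SimpleGraph V} {Sp : Finset V} {w : W} {x : V ⊕ W} :
    ¬ (bg G Sp).Adj x (Sum.inr w) := fun h => bg_r h.symm

theorem card_nb_bg (G : SimpleGraph V) (Sp : Finset V) (a : V) :
    (nb (bg G Sp : SimpleGraph (V ⊕ W)) (Sum.inl a)).card ≤ (nb G a).card := by
  have h1 : nb (bg G Sp : SimpleGraph (V ⊕ W)) (Sum.inl a) ⊆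
      (nb G a).map ⟨Sum.inl, Sum.inl_injective⟩ := by
    intro x hx
    rw [mem_nb] at hx
    rcases x with b | w
    · rw [mem_map]
      exact ⟨b, (mem_nb _ _ _).mpr (bg_ll.mp hx).1, rfl⟩
    · exact absurd hx bg_r'
  exact (card_le_card h1).trans (by rw [card_map])

theorem card_nb_bg' (G : SimpleGraph V) (Sp : Finset V) (w : W) :
    nb (bg G Sp : SimpleGraph (V ⊕ W)) (Sum.inr w) = ∅ := by
  rw [eq_empty_iff_forall_notMem]
  intro x hx
  rw [mem_nb] at hx
  exact bg_r hx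

/-- the graph of the cliques on the spots -/
def qg (Ys : Finset (Finset V)) : SimpleGraph (V ⊕ W) where
  Adj x y := ∃ a b, x = Sum.inl a ∧ y = Sum.inl b ∧ a ≠ b ∧ ∃ Y ∈ Ys, a ∈ Y ∧ b ∈ Y
  symm := ⟨by
    rintro x y ⟨a, b, h1, h2, h3, Y, h4, h5, h6⟩
    exact ⟨b, a, h2, h1, h3.symm, Y, h4, h6, h5⟩⟩
  loopless := ⟨by
    rintro x ⟨a, b, h1, h2, h3, -⟩
    rw [h1] at h2
    exact h3 (Sum.inl.inj h2)⟩

theorem nb_qg {Ys : Finset (Finset V)} (hd : ∀ Y ∈ Ys, ∀ Y' ∈ Ys, Y ≠ Y' → Disjoint Y Y')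
    {Y : Finset V} (hY : Y ∈ Ys) {a : V} (ha : a ∈ Y) :
    nb (qg Ys : SimpleGraph (V ⊕ W)) (Sum.inl a) = ul (Y.erase a) := by
  ext x
  rw [mem_nb]
  constructor
  · rintro ⟨a', b, h1, h2, h3, Y', h4, h5, h6⟩
    have h7 := Sum.inl.inj h1
    rw [h2, mem_ul, mem_erase]
    subst h7
    have h8 : Y = Y' := by
      by_contra h9
      exact disjoint_left.mp (hd Y hY Y' h4 h9) ha h5
    rw [h8]
    exact ⟨h3.symm, h6⟩
  · intro hx
    rcases x with b | w
    · rw [mem_ul, mem_erase] at hx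
      exact ⟨a, b, rfl, rfl, hx.1.symm, Y, hY, ha, hx.2⟩
    · exact absurd hx not_ul

theorem card_qg {Ys : Finset (Finset V)} (hd : ∀ Y ∈ Ys, ∀ Y' ∈ Ys, Y ≠ Y' → Disjoint Y Y')
    {d : ℕ} (hc : ∀ Y ∈ Ys, Y.card ≤ 2 * d) (x : V ⊕ W) :
    (nb (qg Ys : SimpleGraph (V ⊕ W)) x).card ≤ 2 * d := by
  by_cases h : ∃ a, x = Sum.inl a ∧ ∃ Y ∈ Ys, a ∈ Y
  · obtain ⟨a, rfl, Y, hY, ha⟩ := h
    rw [nb_qg hd hY ha]
    unfold ul
    rw [card_map]
    exact (card_le_card (erase_subset _ _)).trans (hc Y hY)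
  · have h1 : nb (qg Ys : SimpleGraph (V ⊕ W)) x = ∅ := by
      rw [eq_empty_iff_forall_notMem]
      intro y hy
      rw [mem_nb] at hy
      obtain ⟨a, b, h1, h2, h3, Y, h4, h5, h6⟩ := hy
      exact h ⟨a, h1, Y, h4, h5⟩
    rw [h1]
    exact Nat.zero_le _

end lift

end Pool.Agent.Work.MP_db9399_ot.helper1
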