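import Pool.Agent.Work.MP_db9399_ot_helper1.LIFT
import Pool.Agent.Work.MP_db9399_ot_helper1.KERN
import Pool.Agent.Work.MP_db9399_ot.Interface2
import Pool.Agent.Work.MP_db9399_ot.Base
import Pool.Agent.Work.MP_db9399_th_helper59.THINU

/-! # THEOREM OUT: the assembly -/

set_option autoImplicit false
set_option linter.unusedSectionVars false

namespace Pool.Agent.Work.MP_db9399_ot.helper1

open Finset Classical
open Pool.Agent.Work.MP_db9399_all (nb)
open Pool.Agent.Work.MP_db9399_dn (NB IsMat Tot)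
open Pool.Agent.Work.MP_db9399_mad (EG)
open Pool.Agent.Work.MP_db9399_bg (HPre den cl LabP)
open Pool.Agent.Work.MP_db9399_th (Kern Bdry Host)
open Pool.Agent.Work.MP_db9399_lc (BL)

universe u

section aux
variable {V : Type u} [Fintype V] {W : Type} [Fintype W]

theorem mem_cl {T : Type} {lab : V → T} {P : Finset T} {v : V} : v ∈ cl lab P ↔ lab v ∈ P := by
  unfold cl
  rw [mem_filter]
  exact ⟨fun h => h.2, fun h => ⟨mem_univ _, h⟩⟩

/-- labels are equitable in the spots -/
theorem eqY {Ys : Finset (Finset V)} (hd : ∀ Y ∈ Ys, ∀ Y' ∈ Ys, Y ≠ Y' → Disjoint Y Y')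
    {T : Type} [Fintype T] {d : ℕ} {σ c1 : ℝ} {lb : V ⊕ W → T}
    (hL : LabP (qg Ys : SimpleGraph (V ⊕ W)) d σ c1 lb) (hσ : 0 ≤ σ) {Y : Finset V} (hY : Y ∈ Ys)
    (P : Finset T) :
    |((Y.filter (fun v => lb (Sum.inl v) ∈ P)).card : ℝ) - den P * Y.card| ≤ σ * d + 2 := by
  have hP0 : 0 ≤ den P := by unfold den; positivity
  have hP1 : den P ≤ 1 := by
    unfold den
    apply div_le_one_of_le₀
    · exact_mod_cast card_le_univ P
    · positivity
  rcases Y.eq_empty_or_nonempty with h0 | ⟨a, ha⟩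
  · rw [h0]
    simp only [filter_empty, card_empty, Nat.cast_zero, mul_zero, sub_zero, abs_zero]
    positivity
  · obtain ⟨X, hX, h1⟩ : ∃ X : Finset (V ⊕ W), (∀ x, x ∈ X ↔
        x ∈ nb (qg Ys : SimpleGraph (V ⊕ W)) (Sum.inl a) ∧ lb x ∈ P) ∧
        |(X.card : ℝ) - den P * (nb (qg Ys : SimpleGraph (V ⊕ W)) (Sum.inl a)).card| ≤
          σ * d := ⟨_, fun x => (@Finset.mem_inter _ (fun a b => Classical.propDecidable (a = b)) _ _ _).trans
          (and_congr_right fun _ => mem_cl), hL.deg (Sum.inl a) P⟩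
    rw [nb_qg hd hY ha] at h1
    have hX' : ∀ x, x ∈ X ↔ x ∈ (ul (Y.erase a) : Finset (V ⊕ W)) ∧ lb x ∈ P := by
      intro x
      rw [hX, nb_qg hd hY ha]
    have h2 : (ul (Y.erase a) : Finset (V ⊕ W)).card + 1 = Y.card := by
      unfold ul
      rw [card_map, card_erase_add_one ha]
    have h3 : X.card ≤ (Y.filter (fun v => lb (Sum.inl v) ∈ P)).card := by
      have : X ⊆ ul (Y.filter (fun v => lb (Sum.inl v) ∈ P)) := by
        intro x hx
        rw [hX'] at hx
        rcases x with b | w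
        · rw [mem_ul, mem_filter]
          exact ⟨mem_of_mem_erase (mem_ul.mp hx.1), hx.2⟩
        · exact absurd hx.1 not_ul
      refine (card_le_card this).trans ?_
      unfold ul
      rw [card_map]
    have h4 : (Y.filter (fun v => lb (Sum.inl v) ∈ P)).card ≤ X.card + 1 := by
      have : (ul (Y.filter (fun v => lb (Sum.inl v) ∈ P)) : Finset (V ⊕ W)) ⊆
          X ∪ {Sum.inl a} := by
        intro x hx
        rw [mem_union, hX', mem_singleton]
        rcases x with b | w
        · rw [mem_ul, mem_filter] at hx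
          by_cases hb : b = a
          · right; rw [hb]
          · left
            exact ⟨mem_ul.mpr (mem_erase.mpr ⟨hb, hx.1⟩), hx.2⟩
        · exact absurd hx not_ul
      have h5 := (card_le_card this).trans (card_union_le _ _)
      rw [card_singleton] at h5
      refine le_trans ?_ h5
      unfold ul
      rw [card_map]
    have h2' : ((ul (Y.erase a) : Finset (V ⊕ W)).card : ℝ) + 1 = Y.card := by exact_mod_cast h2
    have h3' : (X.card : ℝ) ≤
        (Y.filter (fun v => lb (Sum.inl v) ∈ P)).card := by exact_mod_cast h3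
    have h4' : ((Y.filter (fun v => lb (Sum.inl v) ∈ P)).card : ℝ) ≤
        X.card + 1 := by exact_mod_cast h4
    have key : ∀ (X I u q s : ℝ), I ≤ X → X ≤ I + 1 → 0 ≤ q → q ≤ 1 → |I - q * u| ≤ s →
        |X - q * (u + 1)| ≤ s + 2 := by
      intro X I u q s g1 g2 g3 g4 g5
      rw [abs_le] at g5 ⊢
      rw [mul_add, mul_one]
      constructor
      · linarith [g5.1]
      · linarith [g5.2]
    rw [← h2']
    exact key _ _ _ _ _ h3' h4' hP0 hP1 h1

end aux

section kt
variable {M1 R0 n : ℕ}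

/-- number of classes of the type `j` -/
theorem card_kt (e : Kp M1 × Fin R0 ≃ Fin n) (j : Fin 3) :
    (univ.filter (fun i : Fin n => kt (e.symm i).1 = some j)).card = M1 * R0 := by
  have h1 : (univ.filter (fun i : Fin n => kt (e.symm i).1 = some j)).card =
      ((univ : Finset (Fin M1 × Fin R0)).card) := by
    symm
    refine Finset.card_bij (fun x _ => e (some (j, x.1), x.2)) ?_ ?_ ?_
    · intro x _
      rw [mem_filter]
      refine ⟨mem_univ _, ?_⟩
      rw [Equiv.symm_apply_apply]
      rfl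
    · intro x _ y _ h
      have h2 := e.injective h
      simp only [Prod.mk.injEq, Option.some.injEq, true_and] at h2
      exact Prod.ext h2.1 h2.2
    · intro i hi
      rw [mem_filter] at hi
      obtain ⟨⟨κ, v⟩, rfl⟩ := e.surjective i
      rw [Equiv.symm_apply_apply] at hi
      rcases κ with _ | ⟨j', y⟩
      · exact absurd hi.2 (by simp [kt])
      · have h3 : j' = j := Option.some.inj hi.2
        exact ⟨(y, v), mem_univ _, by rw [h3]⟩
  rw [h1, card_univ, Fintype.card_prod, Fintype.card_fin, Fintype.card_fin]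

end kt

section main
variable {V : Type u} [Fintype V] {W : Type} [Fintype W]

theorem exists_M1 (π : ℝ) (hπ3 : π < 1 / 3) :
    ∃ M1 : ℕ, π * (3 * (M1 : ℝ) + 1) + 2 ≤ M1 := by
  obtain ⟨M1, h⟩ := exists_nat_ge (2 * (π + 2) / (1 - 3 * π))
  refine ⟨M1, ?_⟩
  have h1 : 0 < 1 - 3 * π := by linarith
  rw [div_le_iff₀ h1] at h
  rcases le_or_gt 0 (π + 2) with h2 | h2
  · nlinarith
  · nlinarith [(Nat.cast_nonneg M1 : (0 : ℝ) ≤ M1)]

theorem bdry {G : SimpleGraph V} {Sp : Finset V} {d : ℕ} {θ : ℝ}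
    (h1 : ∀ s ∈ Sp, ((nb G s).card : ℝ) ≤ θ * d) (h2 : ∀ s ∈ Sp, ∀ s' ∈ Sp, ¬ G.Adj s s')
    (K : SimpleGraph W) (R : V → W → Prop) (hR : ∀ w a b, R a w → R b w → a = b) :
    Bdry θ (EG G K R) d (ul Sp) (bg G Sp) where
  le := by
    intro x y h
    obtain ⟨a, b, rfl, rfl, h3, -⟩ := h
    exact h3
  one := by
    intro x y h
    obtain ⟨a, b, rfl, rfl, h3, h4⟩ := h
    rw [mem_ul, mem_ul]
    constructor
    · intro h5 h6
      exact h2 a h5 b h6 h3
    · intro h5
      exact h4.resolve_right h5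
  ind := by
    intro x hx y hy h
    rcases x with a | a
    · rcases y with b | b
      · exact h2 a (mem_ul.mp hx) b (mem_ul.mp hy) h
      · exact not_ul hy
    · exact not_ul hx
  deg := by
    intro x hx
    rcases x with a | a
    · refine le_trans ?_ (h1 a (mem_ul.mp hx))
      exact_mod_cast card_nb_bg G Sp a
    · exact absurd hx not_ul
  fak := by
    intro x hx
    rw [card_le_one]
    intro y hy z hz
    simp only [mem_sdiff, mem_inter, mem_nb] at hy hz
    rcases y with b | b
    · rcases z with c | c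
      · rcases x with a | w
        · exfalso
          exact hy.2 (bg_ll.mpr ⟨hy.1.1, Or.inr (mem_ul.mp hy.1.2)⟩)
        · rw [hR w b c hy.1.1 hz.1.1]
      · exact absurd hz.1.2 not_ul
    · exact absurd hy.1.2 not_ul

theorem card_nb_eh (Cf : SimpleGraph V) (a : V) :
    (nb (eh Cf : SimpleGraph (V ⊕ W)) (Sum.inl a)).card ≤ (nb Cf a).card := by
  have h1 : nb (eh Cf : SimpleGraph (V ⊕ W)) (Sum.inl a) ⊆
      (nb Cf a).map ⟨Sum.inl, Sum.inl_injective⟩ := by
    intro x hx
    rw [mem_nb] at hx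
    rcases x with b | w
    · rw [mem_map]
      exact ⟨b, (mem_nb _ _ _).mpr (eh_ll.mp hx), rfl⟩
    · exact absurd hx eh_r'
  exact (card_le_card h1).trans (by rw [card_map])

theorem card_nb_eh' (Cf : SimpleGraph V) (w : W) :
    nb (eh Cf : SimpleGraph (V ⊕ W)) (Sum.inr w) = ∅ := by
  rw [eq_empty_iff_forall_notMem]
  intro x hx
  rw [mem_nb] at hx
  exact eh_r hx

/-- number of labels: special -/
theorem card_P0 {M1 R0 n : ℕ} (e : Kp M1 × Fin R0 ≃ Fin n) :
    den (univ.filter (fun l : Lb M1 R0 => l.2.2 = none)) = 1 / ((n : ℝ) + 1) := by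
  unfold den
  rw [card_Lb e]
  have h1 : (univ.filter (fun l : Lb M1 R0 => l.2.2 = none)).card = 6 := by
    have h2 : (univ.filter (fun l : Lb M1 R0 => l.2.2 = none)) =
        (univ : Finset (Fin 3 × Bool)).image
          (fun x => ((x.1, (x.2, none)) : Lb M1 R0)) := by
      ext l
      rw [mem_filter, mem_image]
      constructor
      · rintro ⟨-, h⟩
        refine ⟨(l.1, l.2.1), mem_univ _, ?_⟩
        obtain ⟨p, b, u⟩ := l
        simp only at h
        rw [h]
      · rintro ⟨x, -, rfl⟩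
        exact ⟨mem_univ _, rfl⟩
    rw [h2, card_image_of_injective]
    · rw [card_univ, Fintype.card_prod, Fintype.card_fin, Fintype.card_bool]
    · intro x y h
      simp only [Prod.mk.injEq, and_true] at h
      exact Prod.ext h.1 h.2
  rw [h1]
  push_cast
  have : (n : ℝ) + 1 ≠ 0 := by positivity
  field_simp

/-- number of labels: cells -/
theorem card_P1 {M1 R0 n : ℕ} (e : Kp M1 × Fin R0 ≃ Fin n) (i : Fin 3) (b : Bool) :
    den (univ.filter (fun l : Lb M1 R0 => l.1 = i ∧ l.2.1 = b)) = 1 / 6 := by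
  unfold den
  rw [card_Lb e]
  have h1 : (univ.filter (fun l : Lb M1 R0 => l.1 = i ∧ l.2.1 = b)).card = n + 1 := by
    have h2 : (univ.filter (fun l : Lb M1 R0 => l.1 = i ∧ l.2.1 = b)) =
        (univ : Finset (Option (Kp M1 × Fin R0))).image
          (fun x => ((i, (b, x)) : Lb M1 R0)) := by
      ext l
      rw [mem_filter, mem_image]
      constructor
      · rintro ⟨-, h, h'⟩
        refine ⟨l.2.2, mem_univ _, ?_⟩
        obtain ⟨p, b, u⟩ := l
        simp only at h h'
        rw [h, h']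
      · rintro ⟨x, -, rfl⟩
        exact ⟨mem_univ _, rfl, rfl⟩
    rw [h2, card_image_of_injective]
    · rw [card_univ, Fintype.card_option, Fintype.card_congr e, Fintype.card_fin]
    · intro x y h
      simp only [Prod.mk.injEq, true_and] at h
      exact h
  rw [h1]
  push_cast
  have : (n : ℝ) + 1 ≠ 0 := by positivity
  field_simp

/-- number of labels: class number -/
theorem card_P2 {M1 R0 n : ℕ} (e : Kp M1 × Fin R0 ≃ Fin n) (v0 : Fin R0) :
    den (univ.filter (fun l : Lb M1 R0 => ∃ κ, l.2.2 = some (κ, v0))) * R0 ≤ 1 := by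
  unfold den
  rw [card_Lb e]
  have h1 : (univ.filter (fun l : Lb M1 R0 => ∃ κ, l.2.2 = some (κ, v0))).card =
      6 * (3 * M1 + 1) := by
    have h2 : (univ.filter (fun l : Lb M1 R0 => ∃ κ, l.2.2 = some (κ, v0))) =
        (univ : Finset (Fin 3 × Bool × Kp M1)).image
          (fun x => ((x.1, (x.2.1, some (x.2.2, v0))) : Lb M1 R0)) := by
      ext l
      rw [mem_filter, mem_image]
      constructor
      · rintro ⟨-, κ, h⟩
        refine ⟨(l.1, l.2.1, κ), mem_univ _, ?_⟩
        obtain ⟨p, b, u⟩ := l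
        simp only at h
        rw [h]
      · rintro ⟨x, -, rfl⟩
        exact ⟨mem_univ _, x.2.2, rfl⟩
    rw [h2, card_image_of_injective]
    · rw [card_univ, Fintype.card_prod, Fintype.card_prod, card_Kp, Fintype.card_fin,
        Fintype.card_bool]
      ring
    · intro x y h
      simp only [Prod.mk.injEq, Option.some.injEq, and_true] at h
      exact Prod.ext h.1 (Prod.ext h.2.1 h.2.2)
  rw [h1]
  have h3 := card_n e
  have h4 : ((6 * (n + 1) : ℕ) : ℝ) = 6 * ((3 * (M1 : ℝ) + 1) * R0 + 1) := by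
    rw [← h3]; push_cast; ring
  rw [h4, div_mul_eq_mul_div, div_le_one (by positivity)]
  push_cast
  have : (0 : ℝ) ≤ R0 := Nat.cast_nonneg _
  nlinarith

end main

end Pool.Agent.Work.MP_db9399_ot.helper1
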