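import Pool.Agent.Work.MP_db9399_ot_helper1.OUT

/-! # THEOREM OUT: the fields of the result -/

set_option autoImplicit false
set_option linter.unusedSectionVars false

namespace Pool.Agent.Work.MP_db9399_ot.helper1

open Finset Classical
open Pool.Agent.Work.MP_db9399_all (nb)
open Pool.Agent.Work.MP_db9399_dn (NB IsMat Tot)
open Pool.Agent.Work.MP_db9399_mad (EG)
open Pool.Agent.Work.MP_db9399_bg (HPre den cl LabP)
open Pool.Agent.Work.MP_db9399_th (Kern Bdry Host)
open Pool.Agent.Work.MP_db9399_lc (BL)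

universe u

section main
variable {V : Type u} [Fintype V] {W : Type} [Fintype W]

theorem num_Cc {M R0 n π η ε d D x : ℝ} (hx : x = M * R0) (hM0 : 0 ≤ M) (hR1 : 1 ≤ R0)
    (hn0 : 0 ≤ n) (hncard : (3 * M + 1) * R0 = n) (hM1 : π * (3 * M + 1) + 2 ≤ M)
    (hπ3 : π < 1 / 3) (hη0 : 0 ≤ η) (hηn : η ≤ 1 / (4 * (n + 1))) (hε0 : 0 ≤ ε)
    (hεn : ε ≤ 1 / (4 * (n + 1))) (hd0 : 0 ≤ d) (hD : (1 - ε) * d ≤ (n + 1) * D) :
    π * d ≤ x * ((1 - η) * D) := by
  have hnp : (0 : ℝ) < n + 1 := by positivity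
  have hη1 : η * (4 * (n + 1)) ≤ 1 := by
    rw [← le_div_iff₀ (by positivity)]; exact hηn
  have hε1 : ε * (4 * (n + 1)) ≤ 1 := by
    rw [← le_div_iff₀ (by positivity)]; exact hεn
  have hA0 : 0 ≤ M * R0 := by positivity
  have hMR : M * R0 ≤ n := by
    rw [← hncard]
    nlinarith
  have g1 : π * (n + 1) ≤ M * R0 - 5 / 3 := by
    rw [← hncard]
    have h1 : π * ((3 * M + 1) * R0 + 1) = (π * (3 * M + 1)) * R0 + π := by ring
    have h2 : π * (3 * M + 1) * R0 ≤ (M - 2) * R0 :=
      mul_le_mul_of_nonneg_right (by linarith) (by linarith)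
    rw [h1]
    nlinarith
  have g2 : M * R0 * η ≤ 1 / 4 := by
    have := mul_le_mul_of_nonneg_right hMR hη0
    nlinarith
  have g3 : M * R0 * ε ≤ 1 / 4 := by
    have := mul_le_mul_of_nonneg_right hMR hε0
    nlinarith
  have hηle : η ≤ 1 := by nlinarith
  have g4 : M * R0 - 1 / 2 ≤ M * R0 * ((1 - η) * (1 - ε)) := by
    have h1 : 1 - η - ε ≤ (1 - η) * (1 - ε) := by nlinarith [mul_nonneg hη0 hε0]
    have h2 := mul_le_mul_of_nonneg_left h1 hA0
    nlinarith
  have g5 : M * R0 * (1 - η) * ((1 - ε) * d) ≤ M * R0 * (1 - η) * ((n + 1) * D) :=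
    mul_le_mul_of_nonneg_left hD (mul_nonneg hA0 (by linarith))
  have g6 : π * (n + 1) * d ≤ (M * R0 - 5 / 3) * d := mul_le_mul_of_nonneg_right g1 hd0
  have g7 : (M * R0 - 1 / 2) * d ≤ M * R0 * ((1 - η) * (1 - ε)) * d :=
    mul_le_mul_of_nonneg_right g4 hd0
  have g8 : (n + 1) * (π * d) ≤ (n + 1) * (x * ((1 - η) * D)) := by
    rw [hx]
    calc (n + 1) * (π * d) = π * (n + 1) * d := by ring
      _ ≤ (M * R0 - 5 / 3) * d := g6
      _ ≤ (M * R0 - 1 / 2) * d := mul_le_mul_of_nonneg_right (by linarith) hd0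
      _ ≤ M * R0 * ((1 - η) * (1 - ε)) * d := g7
      _ = M * R0 * (1 - η) * ((1 - ε) * d) := by ring
      _ ≤ M * R0 * (1 - η) * ((n + 1) * D) := g5
      _ = (n + 1) * (M * R0 * ((1 - η) * D)) := by ring
  exact le_of_mul_le_mul_left g8 hnp

theorem outR {k n M1 R0 : ℕ} (e : Kp M1 × Fin R0 ≃ Fin n) {δ π η σ ε : ℝ} {G : SimpleGraph V}
    {K : SimpleGraph W} {R : V → W → Prop} {H : SimpleGraph (V ⊕ W)}
    {Gc : Fin n → SimpleGraph (V ⊕ W)} {d D : ℕ} {Sp : Finset V} {Ys : Finset (Finset V)}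
    {UH : Finset V} {EH : SimpleGraph V} {c : V ⊕ W → Fin k} {t : V ⊕ W → V ⊕ W → Fin k}
    {K0 E1 : Finset (Fin k)} {cs : Fin k → Option (Fin n)} {lb : V ⊕ W → Lb M1 R0}
    (hres : Res η (EG G K R) H (qg Ys) Gc d D (ul UH) (eh EH) c t K0 E1 cs)
    (hlab : LabP (qg Ys : SimpleGraph (V ⊕ W)) d σ 1 lb)
    (hsup : ∀ y s, (bg G Sp : SimpleGraph (V ⊕ W)).Adj y s → s ∈ ul Sp →
      (H.Adj y s → 0 < qk e (lb s) none) ∧
      ∀ i, (Gc i).Adj y s → 0 < qk e (lb s) (some i))
    (hYs : ∀ Y ∈ Ys, Y ⊆ Sp ∧ Y.card ≤ 2 * d)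
    (hdis : ∀ Y ∈ Ys, ∀ Y' ∈ Ys, Y ≠ Y' → Disjoint Y Y')
    (hδ : 0 < δ) (hπ3 : π < 1 / 3) (hM1 : π * (3 * (M1 : ℝ) + 1) + 2 ≤ M1)
    (hR0 : 4 ≤ δ * R0) (hR1 : (1 : ℝ) ≤ R0) (hσ0 : 0 ≤ σ) (hσ : σ ≤ δ / 8)
    (hd : 16 ≤ δ * d) (hη : η ≤ δ / 2) (hη0 : 0 ≤ η) (hηn : η ≤ 1 / (4 * ((n : ℝ) + 1)))
    (hεn : ε ≤ 1 / (4 * ((n : ℝ) + 1))) (hε0 : 0 ≤ ε)
    (hD : (1 - ε) * d ≤ ((n : ℝ) + 1) * D) :
    OutR δ π G d Sp Ys UH EH (fun v => c (Sum.inl v)) (fun v w => t (Sum.inl v) (Sum.inl w)) K0
      (fun j => K0.filter (fun b => b ∉ E1 ∧ ∃ i, cs b = some i ∧ kt (e.symm i).1 = some j))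
      (fun v => (lb (Sum.inl v)).1) (fun v => (lb (Sum.inl v)).2.1)
      (univ.filter (fun v => (lb (Sum.inl v)).2.2 = none)) := by
  have hd0 : (0 : ℝ) ≤ d := Nat.cast_nonneg _
  have hn0 : (0 : ℝ) ≤ n := Nat.cast_nonneg _
  have hncard : ((3 * (M1 : ℝ) + 1) * R0 : ℝ) = n := by
    have h := card_n e
    rw [← h]; push_cast; ring
  have hYd : ∀ Y ∈ Ys, (Y.card : ℝ) ≤ 2 * d := by
    intro Y hY
    exact_mod_cast (hYs Y hY).2
  -- boundary edges at `s` outside `Z`
  have key : ∀ s ∈ Sp, (lb (Sum.inl s)).2.2 ≠ none → ∀ v, G.Adj s v → ¬ EH.Adj s v →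
      ¬ H.Adj (Sum.inl s) (Sum.inl v) ∧ (t (Sum.inl s) (Sum.inl v) ∉ E1 →
        ∃ i κ', cs (t (Sum.inl s) (Sum.inl v)) = some i ∧
          (lb (Sum.inl s)).2.2 = some (κ', (e.symm i).2) ∧
          kt (e.symm i).1 ≠ some (lb (Sum.inl s)).1) := by
    intro s hs hZ v hsv hEH
    have hb : (bg G Sp : SimpleGraph (V ⊕ W)).Adj (Sum.inl v) (Sum.inl s) :=
      bg_ll.mpr ⟨hsv.symm, Or.inr hs⟩
    have hH : ¬ H.Adj (Sum.inl s) (Sum.inl v) := by
      intro h
      have h1 := (hsup _ _ hb (mem_ul.mpr hs)).1 h.symm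
      rcases qk_pos e h1 with h2 | ⟨κ', v', κ, h2, h3, h4⟩
      · exact hZ h2.1
      · cases h3
    refine ⟨hH, fun hE1 => ?_⟩
    have h5 := hres.edg (Sum.inl s) (Sum.inl v) hsv (fun h => hEH (eh_ll.mp h)) hE1
    rcases h5 with h5 | ⟨i, h5, h6⟩
    · exact absurd h5 hH
    · have h1 := (hsup _ _ hb (mem_ul.mpr hs)).2 i h6.symm
      rcases qk_pos e h1 with h2 | ⟨κ', v', κ, h2, h3, h4⟩
      · exact absurd h2.1 hZ
      · have h7 := Option.some.inj h3
        refine ⟨i, κ', h5, ?_, ?_⟩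
        · rw [h2, h7, Equiv.symm_apply_apply]
        · rw [h7, Equiv.symm_apply_apply]
          exact h4
  exact
  { K0c := hres.K0c
    vK := fun v hv => hres.vK _ (fun h => hv (mem_ul.mp h))
    tK := fun v v' hvv hE => hres.tK _ _ hvv (fun h => hE (eh_ll.mp h))
    CK := fun j => filter_subset _ _
    Cc := by
      intro j
      have hdisj : ∀ i ∈ univ.filter (fun i : Fin n => kt (e.symm i).1 = some j),
          ∀ i' ∈ univ.filter (fun i : Fin n => kt (e.symm i).1 = some j), i ≠ i' →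
          Disjoint (K0.filter (fun b => b ∉ E1 ∧ cs b = some i))
            (K0.filter (fun b => b ∉ E1 ∧ cs b = some i')) := by
        intro i _ i' _ hii
        rw [Finset.disjoint_left]
        intro b hb hb'
        rw [mem_filter] at hb hb'
        exact hii (Option.some.inj (hb.2.2.symm.trans hb'.2.2))
      have hsub : (univ.filter (fun i : Fin n => kt (e.symm i).1 = some j)).biUnion
          (fun i => K0.filter (fun b => b ∉ E1 ∧ cs b = some i)) ⊆
          K0.filter (fun b => b ∉ E1 ∧ ∃ i, cs b = some i ∧ kt (e.symm i).1 = some j) := by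
        intro b hb
        rw [mem_biUnion] at hb
        obtain ⟨i, hi, hb⟩ := hb
        rw [mem_filter] at hi hb ⊢
        exact ⟨hb.1, hb.2.1, i, hb.2.2, hi.2⟩
      have h1 := card_le_card hsub
      rw [card_biUnion hdisj] at h1
      have h2 : ((M1 * R0 : ℕ) : ℝ) * ((1 - η) * D) ≤
          ((∑ i ∈ univ.filter (fun i : Fin n => kt (e.symm i).1 = some j),
            (K0.filter (fun b => b ∉ E1 ∧ cs b = some i)).card : ℕ) : ℝ) := by
        rw [Nat.cast_sum]
        have h3 : ∀ i ∈ univ.filter (fun i : Fin n => kt (e.symm i).1 = some j),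
            (1 - η) * D ≤ ((K0.filter (fun b => b ∉ E1 ∧ cs b = some i)).card : ℝ) :=
          fun i _ => hres.cnt i
        have h4 := Finset.card_nsmul_le_sum _ _ _ h3
        rw [card_kt, nsmul_eq_mul] at h4
        exact h4
      have h5 : ((∑ i ∈ univ.filter (fun i : Fin n => kt (e.symm i).1 = some j),
            (K0.filter (fun b => b ∉ E1 ∧ cs b = some i)).card : ℕ) : ℝ) ≤
          ((K0.filter (fun b => b ∉ E1 ∧
            ∃ i, cs b = some i ∧ kt (e.symm i).1 = some j)).card : ℝ) := by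
        exact_mod_cast h1
      refine le_trans ?_ (h2.trans h5)
      exact num_Cc (M := (M1 : ℝ)) (R0 := (R0 : ℝ)) (x := ((M1 * R0 : ℕ) : ℝ))
        (by push_cast; ring) (Nat.cast_nonneg _) hR1 hn0 hncard hM1 hπ3 hη0 hηn hε0 hεn hd0 hD
    Cd := by
      intro i j hij
      rw [Finset.disjoint_left]
      intro b hb hb'
      rw [mem_filter] at hb hb'
      obtain ⟨x, hx, hx'⟩ := hb.2.2
      obtain ⟨y, hy, hy'⟩ := hb'.2.2
      have h1 : x = y := Option.some.inj (hx.symm.trans hy)
      rw [h1] at hx'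
      exact hij (Option.some.inj (hx'.symm.trans hy'))
    av := by
      intro s hs hZ v hsv hEH hC
      rw [mem_filter] at hC
      have hZ' : (lb (Sum.inl s)).2.2 ≠ none := fun h =>
        hZ (mem_filter.mpr ⟨mem_univ _, h⟩)
      obtain ⟨h1, h2⟩ := key s hs hZ' v hsv hEH
      obtain ⟨i, κ', h3, h4, h5⟩ := h2 hC.2.1
      obtain ⟨i', h6, h7⟩ := hC.2.2
      have h8 : i = i' := Option.some.inj (h3.symm.trans h6)
      rw [h8] at h5
      exact h5 h7
    ZY := by
      intro Y hY
      have h1 := eqY hdis hlab hσ0 hY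
        (univ.filter (fun l : Lb M1 R0 => l.2.2 = none))
      rw [card_P0 e] at h1
      have h2 : ((Y ∩ univ.filter (fun v => (lb (Sum.inl v)).2.2 = none)).card : ℝ) ≤
          ((Y.filter (fun v => lb (Sum.inl v) ∈
            univ.filter (fun l : Lb M1 R0 => l.2.2 = none))).card : ℝ) := by
        have : Y ∩ univ.filter (fun v => (lb (Sum.inl v)).2.2 = none) ⊆
            Y.filter (fun v => lb (Sum.inl v) ∈
              univ.filter (fun l : Lb M1 R0 => l.2.2 = none)) := by
          intro x hx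
          rw [mem_inter, mem_filter] at hx
          rw [mem_filter, mem_filter]
          exact ⟨hx.1, mem_univ _, hx.2.2⟩
        exact_mod_cast card_le_card this
      refine h2.trans ?_
      have h3 := (abs_le.mp h1).2
      have hnp : (0 : ℝ) < (n : ℝ) + 1 := by positivity
      have h4 : 1 / ((n : ℝ) + 1) * Y.card ≤ δ / 2 * d := by
        have h5 : 1 / ((n : ℝ) + 1) ≤ δ / 4 := by
          rw [div_le_iff₀ hnp]
          have h6 : (R0 : ℝ) ≤ n := by
            rw [← hncard]
            have : (0 : ℝ) ≤ M1 := Nat.cast_nonneg _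
            nlinarith
          nlinarith
        have h7 := hYd Y hY
        have h8 : (0 : ℝ) ≤ Y.card := Nat.cast_nonneg _
        nlinarith
      have h9 : σ * d ≤ δ / 8 * d := mul_le_mul_of_nonneg_right hσ hd0
      linarith
    cell := by
      intro Y hY i l
      have h1 := eqY hdis hlab hσ0 hY
        (univ.filter (fun x : Lb M1 R0 => x.1 = i ∧ x.2.1 = l))
      rw [card_P1 e] at h1
      have h2 : Y.filter (fun v => (lb (Sum.inl v)).1 = i ∧ (lb (Sum.inl v)).2.1 = l) =
          Y.filter (fun v => lb (Sum.inl v) ∈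
            univ.filter (fun x : Lb M1 R0 => x.1 = i ∧ x.2.1 = l)) := by
        ext v
        rw [mem_filter, mem_filter, mem_filter]
        constructor
        · rintro ⟨h, h'⟩
          exact ⟨h, mem_univ _, h'⟩
        · rintro ⟨h, -, h'⟩
          exact ⟨h, h'⟩
      have h3 : (Y.card : ℝ) / 6 = 1 / 6 * Y.card := by ring
      rw [h2, h3]
      refine h1.trans ?_
      have h9 : σ * d ≤ δ / 8 * d := mul_le_mul_of_nonneg_right hσ hd0
      linarith
    ld := by
      intro Y hY b
      by_cases hb : b ∈ E1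
      · rcases (Y.filter (fun s => s ∉ univ.filter (fun v => (lb (Sum.inl v)).2.2 = none) ∧
            ∃ v, G.Adj s v ∧ ¬ EH.Adj s v ∧ t (Sum.inl s) (Sum.inl v) = b)).eq_empty_or_nonempty
            with h0 | ⟨a, ha⟩
        · rw [h0, card_empty, Nat.cast_zero]
          positivity
        · have haY : a ∈ Y := (mem_filter.mp ha).1
          have h1 := hres.spr (Sum.inl a) b hb
          have h2 : (Y.filter (fun s => s ∉ univ.filter (fun v => (lb (Sum.inl v)).2.2 = none) ∧
              ∃ v, G.Adj s v ∧ ¬ EH.Adj s v ∧ t (Sum.inl s) (Sum.inl v) = b)).card ≤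
              ((nb (qg Ys : SimpleGraph (V ⊕ W)) (Sum.inl a)).filter (fun x => ∃ y,
                (EG G K R).Adj x y ∧ ¬ (eh EH).Adj x y ∧ ¬ H.Adj x y ∧ t x y = b)).card + 1 := by
            have h3 : (ul (Y.filter (fun s =>
                s ∉ univ.filter (fun v => (lb (Sum.inl v)).2.2 = none) ∧
                ∃ v, G.Adj s v ∧ ¬ EH.Adj s v ∧ t (Sum.inl s) (Sum.inl v) = b)) :
                Finset (V ⊕ W)) ⊆
                ((nb (qg Ys : SimpleGraph (V ⊕ W)) (Sum.inl a)).filter (fun x => ∃ y,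
                (EG G K R).Adj x y ∧ ¬ (eh EH).Adj x y ∧ ¬ H.Adj x y ∧ t x y = b)) ∪
                {Sum.inl a} := by
              intro x hx
              rcases x with s | w
              · rw [mem_ul, mem_filter] at hx
                obtain ⟨hsY, hsZ, v, hsv, hEH, htb⟩ := hx
                rw [mem_union, mem_singleton]
                by_cases hsa : s = a
                · right; rw [hsa]
                · left
                  rw [mem_filter, nb_qg hdis hY haY, mem_ul, mem_erase]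
                  refine ⟨⟨hsa, hsY⟩, Sum.inl v, hsv, fun h => hEH (eh_ll.mp h), ?_, htb⟩
                  exact (key s ((hYs Y hY).1 hsY)
                    (fun h => hsZ (mem_filter.mpr ⟨mem_univ _, h⟩)) v hsv hEH).1
              · exact absurd hx not_ul
            have h4 := (card_le_card h3).trans (card_union_le _ _)
            rw [card_singleton] at h4
            refine le_trans ?_ h4
            unfold ul
            rw [card_map]
          have h5 : ((Y.filter (fun s => s ∉ univ.filter (fun v => (lb (Sum.inl v)).2.2 = none) ∧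
              ∃ v, G.Adj s v ∧ ¬ EH.Adj s v ∧ t (Sum.inl s) (Sum.inl v) = b)).card : ℝ) ≤
              η * d + 1 := by
            have h6 : ((Y.filter (fun s =>
              s ∉ univ.filter (fun v => (lb (Sum.inl v)).2.2 = none) ∧
              ∃ v, G.Adj s v ∧ ¬ EH.Adj s v ∧ t (Sum.inl s) (Sum.inl v) = b)).card : ℝ) ≤
              (((nb (qg Ys : SimpleGraph (V ⊕ W)) (Sum.inl a)).filter (fun x => ∃ y,
                (EG G K R).Adj x y ∧ ¬ (eh EH).Adj x y ∧ ¬ H.Adj x y ∧ t x y = b)).card : ℝ) +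
                1 := by exact_mod_cast h2
            linarith
          refine h5.trans ?_
          have h7 : η * d ≤ δ / 2 * d := mul_le_mul_of_nonneg_right hη hd0
          linarith
      · -- class colours
        rcases (Y.filter (fun s => s ∉ univ.filter (fun v => (lb (Sum.inl v)).2.2 = none) ∧
            ∃ v, G.Adj s v ∧ ¬ EH.Adj s v ∧ t (Sum.inl s) (Sum.inl v) = b)).eq_empty_or_nonempty
            with h0 | ⟨a, ha⟩
        · rw [h0, card_empty, Nat.cast_zero]
          positivity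
        · obtain ⟨haY, haZ, v, hav, hEH, htb⟩ := mem_filter.mp ha
          obtain ⟨i0, κ0, h1, h2, h3⟩ := (key a ((hYs Y hY).1 haY)
            (fun h => haZ (mem_filter.mpr ⟨mem_univ _, h⟩)) v hav hEH).2
            (by rw [htb]; exact hb)
          rw [htb] at h1
          have h4 : Y.filter (fun s => s ∉ univ.filter (fun v => (lb (Sum.inl v)).2.2 = none) ∧
              ∃ v, G.Adj s v ∧ ¬ EH.Adj s v ∧ t (Sum.inl s) (Sum.inl v) = b) ⊆
              Y.filter (fun v => lb (Sum.inl v) ∈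
                univ.filter (fun l : Lb M1 R0 => ∃ κ, l.2.2 = some (κ, (e.symm i0).2))) := by
            intro s hs
            obtain ⟨hsY, hsZ, v', hsv, hEH', htb'⟩ := mem_filter.mp hs
            obtain ⟨i, κ', h5, h6, h7⟩ := (key s ((hYs Y hY).1 hsY)
              (fun h => hsZ (mem_filter.mpr ⟨mem_univ _, h⟩)) v' hsv hEH').2
              (by rw [htb']; exact hb)
            rw [htb'] at h5
            have h8 : i = i0 := Option.some.inj (h5.symm.trans h1)
            rw [h8] at h6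
            rw [mem_filter, mem_filter]
            exact ⟨hsY, mem_univ _, κ', h6⟩
          have h9 := eqY hdis hlab hσ0 hY
            (univ.filter (fun l : Lb M1 R0 => ∃ κ, l.2.2 = some (κ, (e.symm i0).2)))
          have h10 := (abs_le.mp h9).2
          have h11 := card_P2 e (e.symm i0).2
          have h12 : ((Y.filter (fun s =>
              s ∉ univ.filter (fun v => (lb (Sum.inl v)).2.2 = none) ∧
              ∃ v, G.Adj s v ∧ ¬ EH.Adj s v ∧ t (Sum.inl s) (Sum.inl v) = b)).card : ℝ) ≤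
              ((Y.filter (fun v => lb (Sum.inl v) ∈
                univ.filter (fun l : Lb M1 R0 =>
                  ∃ κ, l.2.2 = some (κ, (e.symm i0).2)))).card : ℝ) := by
            exact_mod_cast card_le_card h4
          refine h12.trans ?_
          have h13 : den (univ.filter (fun l : Lb M1 R0 =>
              ∃ κ, l.2.2 = some (κ, (e.symm i0).2))) ≤ δ / 4 := by
            have h14 : 0 ≤ den (univ.filter (fun l : Lb M1 R0 =>
              ∃ κ, l.2.2 = some (κ, (e.symm i0).2))) := by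
              unfold den; positivity
            nlinarith
          have h15 := hYd Y hY
          have h16 : (0 : ℝ) ≤ Y.card := Nat.cast_nonneg _
          have h17 : den (univ.filter (fun l : Lb M1 R0 =>
              ∃ κ, l.2.2 = some (κ, (e.symm i0).2))) * Y.card ≤ δ / 4 * (2 * d) := by
            have h18 := mul_le_mul_of_nonneg_right h13 h16
            have h19 : δ / 4 * (Y.card : ℝ) ≤ δ / 4 * (2 * d) :=
              mul_le_mul_of_nonneg_left h15 (by positivity)
            linarith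
          have h20 : σ * d ≤ δ / 8 * d := mul_le_mul_of_nonneg_right hσ hd0
          linarith }

end main

end Pool.Agent.Work.MP_db9399_ot.helper1
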